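import Pool.Agent.U562.NB.Vir
import Pool.Agent.U562.NB.Ener

set_option autoImplicit false

/-!
# Nonwandering orbits of the three-body problem: parabolic growth and the virial theorem

Three bodies with arbitrary positive masses in space, centre of mass `0`, any energy `E`. There is a
constant `C`, which depends on the masses only, such that at all points of every nonwandering orbit

* `|X| |V|² ≤ C`, where `X`, `V` are the position and velocity of the barycentre of the closest pair
  relative to the third body, and the energy of the closest pair differs from `E` by at most `C / |X|`;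
* the angular momentum is at most `C J^(1/4)`, `J` the moment of inertia: a nonwandering orbit with
  angular momentum `c` stays away from triple collision, `J ≥ (|c| / C)^4`, uniformly in `E`;
* `J^(3/4)` is Lipschitz in the physical time with constant `C`: the size of the system grows at most
  like the power `2/3` of the time, in both directions, as for parabolic motions;
* the virial theorem holds although nonwandering orbits may be unbounded (oscillatory): the integral of
  `U + 2 E` over the physical time `T` is `O(J^(1/4) + T^(1/3))`, so the time average of the potential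
  tends to `-2 E` with the error `O(T^(-2/3))`.

The first bound is the lemma `three` of the library of the starting results (an escape criterion which
needs no energy and no direction of the velocity, because it is used forwards or backwards in time).
The others follow from it with the conservation of energy in Jacobi coordinates, the invariance of the
nonwandering set (continuous dependence on the initial point; the field is smooth away from the
collisions only) and the identity of Lagrange and Jacobi.
-/

open MeasureTheory Filter Topology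

namespace Pool.Agent.Results.MP_70f7a7_an.ParabolicGrowth

/-- The space `R³`. -/
abbrev R3 : Type := EuclideanSpace ℝ (Fin 3)

/-- Phase space: pairs (positions, momenta) of `N` bodies. -/
abbrev Phase (N : ℕ) : Type := (Fin N → R3) × (Fin N → R3)

/-- Kinetic energy of the momenta `p`. -/
noncomputable def kinetic {N : ℕ} (m : Fin N → ℝ) (p : Fin N → R3) : ℝ :=
  ∑ i, ‖p i‖ ^ 2 / (2 * m i)

/-- The Newtonian potential `U(q) = ∑_{i<j} m_i m_j / |q_i - q_j|` (the energy is
kinetic energy minus `U`). -/
noncomputable def potential {N : ℕ} (m : Fin N → ℝ) (q : Fin N → R3) : ℝ :=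
  ∑ i, ∑ j, m i * m j / ‖q i - q j‖ / 2

/-- The energy surface `H = E` of the reduced `N`-body problem (centre of mass `0`, total
momentum `0`, no collisions). -/
def surface {N : ℕ} (m : Fin N → ℝ) (E : ℝ) : Set (Phase N) :=
  {x | (∀ i j, i ≠ j → x.1 i ≠ x.1 j) ∧ ∑ i, m i • x.1 i = 0 ∧ ∑ i, x.2 i = 0 ∧
    kinetic m x.2 - potential m x.1 = E}

/-- `φ` is the complete flow on the energy surface obtained from the `N`-body flow by a smooth
positive change of time `ψ`. -/
structure IsReparametrizedFlow {N : ℕ} (m : Fin N → ℝ) (E : ℝ) (ψ : Phase N → ℝ)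
    (φ : ℝ → Phase N → Phase N) : Prop where
  /-- `ψ` is smooth outside collisions -/
  smooth : ContDiffOn ℝ ((⊤ : ℕ∞) : WithTop ℕ∞) ψ {x | ∀ i j, i ≠ j → x.1 i ≠ x.1 j}
  /-- `ψ` is positive outside collisions -/
  pos : ∀ x : Phase N, (∀ i j, i ≠ j → x.1 i ≠ x.1 j) → 0 < ψ x
  /-- orbits exist for all times and solve the reparametrized equations of motion -/
  flow : ∀ x ∈ surface m E, φ 0 x = x ∧ ∀ t : ℝ, φ t x ∈ surface m E ∧
    HasDerivAt (fun s : ℝ => φ s x)
      (ψ (φ t x) • ((fun i => (m i)⁻¹ • (φ t x).2 i),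
        (fun i => ∑ j, (m i * m j / ‖(φ t x).1 j - (φ t x).1 i‖ ^ 3) •
          ((φ t x).1 j - (φ t x).1 i)))) t

/-- `x` is a nonwandering point of the flow `φ` on the energy surface `S`. -/
def IsNonwandering {N : ℕ} (S : Set (Phase N)) (φ : ℝ → Phase N → Phase N) (x : Phase N) : Prop :=
  ∀ V : Set (Phase N), IsOpen V → x ∈ V → ∀ T : ℝ, ∃ t : ℝ, T < t ∧ ∃ y ∈ V ∩ S, φ t y ∈ V

/-- The velocities. -/
noncomputable def velocity {N : ℕ} (m : Fin N → ℝ) (x : Phase N) : Fin N → R3 :=
  fun i => (m i)⁻¹ • x.2 i

/-- The barycentre of `u_a` and `u_b`, relative to `u_c`. -/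
noncomputable def outer (m : Fin 3 → ℝ) (a b c : Fin 3) (u : Fin 3 → R3) : R3 :=
  (m a + m b)⁻¹ • (m a • u a + m b • u b) - u c

/-- The energy of the bodies `a`, `b` in their centre of mass frame. -/
noncomputable def pairEnergy (m : Fin 3 → ℝ) (a b : Fin 3) (x : Phase 3) : ℝ :=
  m a * m b / (m a + m b) * ‖velocity m x a - velocity m x b‖ ^ 2 / 2 -
    m a * m b / ‖x.1 a - x.1 b‖

/-- `a`, `b` is a closest pair and `c` is the third body. -/
def Closest (a b c : Fin 3) (q : Fin 3 → R3) : Prop :=
  a ≠ b ∧ a ≠ c ∧ b ≠ c ∧ ‖q a - q b‖ ≤ ‖q a - q c‖ ∧ ‖q a - q b‖ ≤ ‖q b - q c‖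

/-- The moment of inertia `J = ∑ m_i |q_i|²`. -/
noncomputable def inertia {N : ℕ} (m : Fin N → ℝ) (q : Fin N → R3) : ℝ := ∑ i, m i * ‖q i‖ ^ 2

/-- The component `k`, `l` of the angular momentum. -/
noncomputable def angular {N : ℕ} (x : Phase N) (k l : Fin 3) : ℝ :=
  ∑ i, (x.1 i k * x.2 i l - x.1 i l * x.2 i k)

/-- The physical time that elapses on the orbit of `x` between the parameters `s` and `t`. -/
noncomputable def elapsed {N : ℕ} (ψ : Phase N → ℝ) (φ : ℝ → Phase N → Phase N) (x : Phase N)
    (s t : ℝ) : ℝ := ∫ r in s..t, ψ (φ r x)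

/-- For three bodies there is `C > 0`, depending on the masses only, such that for every energy `E`,
every complete flow `φ` obtained from the three-body flow on `H = E` by a smooth positive change of
time, and every nonwandering point `x`: (0) all points `φ t x` are nonwandering; (1) at all of them
`|X| |V|² ≤ C` and `|X| |h - E| ≤ C` for the closest pair, its energy `h`, and the relative position
`X` and velocity `V` of its barycentre and the third body; (2) every component of the angular momentum
is at most `C J^(1/4)`; (3) `J^(3/4)` is Lipschitz in physical time with constant `C`; (4) the integral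
of `U + 2 E` over a physical time `T` is at most `C (J^(1/4) + T^(1/3))`, `J` at the beginning;
(5) if the physical time goes to infinity, the time average of `U` tends to `-2 E`. -/
theorem result (m : Fin 3 → ℝ) (hm : ∀ i, 0 < m i) :
    ∃ C : ℝ, 0 < C ∧ ∀ (E : ℝ) (ψ : Phase 3 → ℝ) (φ : ℝ → Phase 3 → Phase 3),
      IsReparametrizedFlow m E ψ φ →
      ∀ x ∈ surface m E, IsNonwandering (surface m E) φ x →
        (∀ t, IsNonwandering (surface m E) φ (φ t x)) ∧
        (∀ t a b c, Closest a b c (φ t x).1 →
          ‖outer m a b c (φ t x).1‖ * ‖outer m a b c (velocity m (φ t x))‖ ^ 2 ≤ C ∧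
          ‖outer m a b c (φ t x).1‖ * |pairEnergy m a b (φ t x) - E| ≤ C) ∧
        (∀ t k l, |angular (φ t x) k l| ≤ C * inertia m (φ t x).1 ^ (1 / 4 : ℝ)) ∧
        (∀ s t, s ≤ t →
          |inertia m (φ t x).1 ^ (3 / 4 : ℝ) - inertia m (φ s x).1 ^ (3 / 4 : ℝ)| ≤
            C * elapsed ψ φ x s t) ∧
        (∀ s t, s ≤ t →
          |∫ r in s..t, (potential m (φ r x).1 + 2 * E) * ψ (φ r x)| ≤
            C * (inertia m (φ s x).1 ^ (1 / 4 : ℝ) + elapsed ψ φ x s t ^ (1 / 3 : ℝ))) ∧
        (Tendsto (fun t => elapsed ψ φ x 0 t) atTop atTop →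
          Tendsto (fun t => (∫ r in (0 : ℝ)..t, potential m (φ r x).1 * ψ (φ r x)) /
            elapsed ψ φ x 0 t) atTop (𝓝 (-2 * E))) := by
  obtain ⟨C1, hC1, h1⟩ := Pool.Agent.N775.NW.three m hm
  obtain ⟨C2, hC2, h2⟩ := Pool.Agent.U562.NB.inner_energy m hm
  obtain ⟨C3, hC3, h3⟩ := Pool.Agent.U562.NB.angular m hm
  obtain ⟨C4, hC4, h4⟩ := Pool.Agent.U562.NB.grow m hm
  obtain ⟨C5, hC5, h5⟩ := Pool.Agent.U562.NB.virial_bound m hm
  refine ⟨C1 + C2 + C3 + C4 + C5, by positivity, ?_⟩
  intro E ψ φ hφ x hx hNW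
  have hfl : Pool.Agent.Y516.NW.IsFl m E ψ φ := ⟨hφ.smooth.continuousOn, hφ.pos, hφ.flow⟩
  have hψ : ContDiffOn ℝ 1 ψ (Pool.Agent.Y516.NW.Free 3) := hφ.smooth.of_le (by exact_mod_cast le_top)
  have hS : ∀ t, φ t x ∈ surface m E := fun t => ((hφ.flow x hx).2 t).1
  have hN : ∀ t, IsNonwandering (surface m E) φ (φ t x) := fun t =>
    Pool.Agent.U562.NB.nonW_inv m E ψ hψ φ hfl x hx hNW t
  have hJ0 : ∀ t, 0 ≤ inertia m (φ t x).1 := fun t =>
    Finset.sum_nonneg fun i _ => by have := hm i; positivity
  have hT0 : ∀ s t, s ≤ t → 0 ≤ elapsed ψ φ x s t := fun s t hst =>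
    intervalIntegral.integral_nonneg hst fun r _ => (hφ.pos _ (hS r).1).le
  have hout : ∀ (a b c : Fin 3) (u : Fin 3 → R3),
      Pool.Agent.Y516.NW.cm m a b u a - u c = outer m a b c u := by
    intro a b c u
    unfold Pool.Agent.Y516.NW.cm outer
    rw [if_pos (Or.inl rfl)]
  refine ⟨hN, ?_, ?_, ?_, ?_, ?_⟩
  · rintro t a b c ⟨hab, hac, hbc, hd1, hd2⟩
    have e1 := h1 E ψ φ hfl (φ t x) (hS t) (hN t) a b c hab hac hbc hd1 hd2
    have e2 := h2 E ψ φ hfl (φ t x) (hS t) (hN t) a b c hab hac hbc hd1 hd2
    rw [hout, hout] at e1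
    rw [hout] at e2
    refine ⟨?_, ?_⟩
    · refine le_trans e1 ?_
      linarith
    · refine le_trans e2 ?_
      linarith
  · intro t k l
    refine (h3 E ψ φ hfl (φ t x) (hS t) (hN t) k l).trans ?_
    refine mul_le_mul_of_nonneg_right ?_ (Real.rpow_nonneg (hJ0 t) _)
    linarith
  · intro s t hst
    refine (h4 E ψ hψ φ hfl x hx hNW s t hst).trans ?_
    refine mul_le_mul_of_nonneg_right ?_ (hT0 s t hst)
    linarith
  · intro s t hst
    refine (h5 E ψ hψ φ hfl x hx hNW s t hst).trans ?_
    refine mul_le_mul_of_nonneg_right ?_ (add_nonneg (Real.rpow_nonneg (hJ0 s) _)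
      (Real.rpow_nonneg (hT0 s t hst) _))
    linarith
  · intro htime
    have hcont : Continuous fun t => φ t x :=
      continuous_iff_continuousAt.mpr fun t => ((hφ.flow x hx).2 t).2.continuousAt
    have hψc : Continuous fun r => ψ (φ r x) :=
      hfl.cont.comp_continuous hcont (fun t => (hS t).1)
    have hpc : Continuous fun r => potential m (φ r x).1 := by
      have e : (fun r => potential m (φ r x).1) = fun r => kinetic m (φ r x).2 - E := by
        funext r
        have := (hS r).2.2.2
        linarith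
      rw [e]
      unfold kinetic
      refine (continuous_finsetSum _ fun i _ => ?_).sub continuous_const
      exact ((((continuous_apply i).comp (continuous_snd.comp hcont)).norm).pow 2).div_const _
    rw [tendsto_iff_norm_sub_tendsto_zero]
    have hlim : Tendsto (fun t => C5 * (inertia m (φ 0 x).1 ^ (1 / 4 : ℝ) *
        (elapsed ψ φ x 0 t)⁻¹ + elapsed ψ φ x 0 t ^ (-(2 / 3) : ℝ))) atTop (𝓝 0) := by
      have a1 : Tendsto (fun t => (elapsed ψ φ x 0 t)⁻¹) atTop (𝓝 0) :=
        tendsto_inv_atTop_zero.comp htime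
      have a2 : Tendsto (fun t => elapsed ψ φ x 0 t ^ (-(2 / 3) : ℝ)) atTop (𝓝 0) :=
        (tendsto_rpow_neg_atTop (by norm_num : (0 : ℝ) < 2 / 3)).comp htime
      have a3 := ((a1.const_mul (inertia m (φ 0 x).1 ^ (1 / 4 : ℝ))).add a2).const_mul C5
      simpa using a3
    refine squeeze_zero' (Eventually.of_forall fun t => norm_nonneg _) ?_ hlim
    filter_upwards [htime.eventually_gt_atTop 0, eventually_ge_atTop (0 : ℝ)] with t hT ht
    have e1 := h5 E ψ hψ φ hfl x hx hNW 0 t ht
    have e2 : (∫ r in (0 : ℝ)..t, (Pool.Agent.U562.NB.pot m (φ r x).1 + 2 * E) * ψ (φ r x)) =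
        (∫ r in (0 : ℝ)..t, potential m (φ r x).1 * ψ (φ r x)) + 2 * E * elapsed ψ φ x 0 t := by
      unfold elapsed
      rw [← intervalIntegral.integral_const_mul, ← intervalIntegral.integral_add]
      · refine intervalIntegral.integral_congr fun r _ => ?_
        show (potential m (φ r x).1 + 2 * E) * ψ (φ r x) = _
        ring
      · exact (hpc.mul hψc).intervalIntegrable _ _
      · exact (continuous_const.mul hψc).intervalIntegrable _ _
    rw [e2] at e1
    have e3 : (∫ r in (0 : ℝ)..t, potential m (φ r x).1 * ψ (φ r x)) / elapsed ψ φ x 0 t -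
        -2 * E = ((∫ r in (0 : ℝ)..t, potential m (φ r x).1 * ψ (φ r x)) +
          2 * E * elapsed ψ φ x 0 t) / elapsed ψ φ x 0 t := by
      field_simp
      ring
    rw [e3, norm_div, Real.norm_eq_abs, Real.norm_of_nonneg hT.le, div_le_iff₀ hT]
    refine e1.trans (le_of_eq ?_)
    show C5 * (inertia m (φ 0 x).1 ^ (1 / 4 : ℝ) + elapsed ψ φ x 0 t ^ (1 / 3 : ℝ)) = _
    have e4 : elapsed ψ φ x 0 t ^ (-(2 / 3) : ℝ) * elapsed ψ φ x 0 t =
        elapsed ψ φ x 0 t ^ (1 / 3 : ℝ) := by
      nth_rewrite 2 [← Real.rpow_one (elapsed ψ φ x 0 t)]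
      rw [← Real.rpow_add hT]
      norm_num
    rw [mul_assoc, add_mul, e4, mul_assoc, inv_mul_cancel₀ hT.ne', mul_one]

end Pool.Agent.Results.MP_70f7a7_an.ParabolicGrowth
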